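import Pool.Agent.H8.AV3.Stmts

set_option autoImplicit false

namespace Pool.Agent.H78.AV3

open Polynomial Matrix Pool.AVR Pool.AV3

variable {F : Type} [Field F]

theorem swp01 (n : ℕ) (d : Fin 3 → ℤ) (c : Fin 10 → F[X]) (hc : c ∈ Vd n d) :
    ∃ c' ∈ Vd n ![d 1, d 0, d 2], ∃ g, Eqv g c c' := by
  refine ⟨![-c 6, -c 3, -c 7, -c 1, -c 4, -c 8, -c 0, -c 2, -c 5, -c 9], ?_,
    !![0, 1, 0; 1, 0, 0; 0, 0, 1], ?_, ?_⟩
  · intro i
    have h0 := hc 0
    have h1 := hc 1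
    have h2 := hc 2
    have h3 := hc 3
    have h4 := hc 4
    have h5 := hc 5
    have h6 := hc 6
    have h7 := hc 7
    have h8 := hc 8
    have h9 := hc 9
    simp only [tr, Fin.sum_univ_three, Matrix.cons_val] at h0 h1 h2 h3 h4 h5 h6 h7 h8 h9
    fin_cases i <;>
      simp only [tr, Fin.sum_univ_three, Matrix.cons_val, Fin.zero_eta, Fin.isValue, Fin.mk_one,
        Fin.reduceFinMk, natDegree_neg, neg_ne_zero, ne_eq] <;> intro h
    · have := h6 h
      omega
    · have := h3 h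
      omega
    · have := h7 h
      omega
    · have := h1 h
      omega
    · have := h4 h
      omega
    · have := h8 h
      omega
    · have := h0 h
      omega
    · have := h2 h
      omega
    · have := h5 h
      omega
    · have := h9 h
      omega
  · simp [Matrix.det_fin_three]
  · funext i
    fin_cases i <;> simp [tsub, tev, tder, Matrix.det_fin_three]

theorem swp12 (n : ℕ) (d : Fin 3 → ℤ) (c : Fin 10 → F[X]) (hc : c ∈ Vd n d) :
    ∃ c' ∈ Vd n ![d 0, d 2, d 1], ∃ g, Eqv g c c' := by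
  refine ⟨![-c 0, -c 2, -c 1, -c 5, -c 4, -c 3, -c 9, -c 8, -c 7, -c 6], ?_,
    !![1, 0, 0; 0, 0, 1; 0, 1, 0], ?_, ?_⟩
  · intro i
    have h0 := hc 0
    have h1 := hc 1
    have h2 := hc 2
    have h3 := hc 3
    have h4 := hc 4
    have h5 := hc 5
    have h6 := hc 6
    have h7 := hc 7
    have h8 := hc 8
    have h9 := hc 9
    simp only [tr, Fin.sum_univ_three, Matrix.cons_val] at h0 h1 h2 h3 h4 h5 h6 h7 h8 h9
    fin_cases i <;>
      simp only [tr, Fin.sum_univ_three, Matrix.cons_val, Fin.zero_eta, Fin.isValue, Fin.mk_one,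
        Fin.reduceFinMk, natDegree_neg, neg_ne_zero, ne_eq] <;> intro h
    · have := h0 h
      omega
    · have := h2 h
      omega
    · have := h1 h
      omega
    · have := h5 h
      omega
    · have := h4 h
      omega
    · have := h3 h
      omega
    · have := h9 h
      omega
    · have := h8 h
      omega
    · have := h7 h
      omega
    · have := h6 h
      omega
  · simp [Matrix.det_fin_three]
  · funext i
    fin_cases i <;> simp [tsub, tev, tder, Matrix.det_fin_three]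
    ring

theorem shft (n : ℕ) (d d' : Fin 3 → ℤ) (m : ℤ) (h : ∀ i, d i = d' i + m) (c : Fin 10 → F[X])
    (hc : c ∈ Vd n d) : c ∈ Vd n d' := by
  intro i hi
  have := hc i hi
  simp only [h, Fin.sum_univ_three] at this ⊢
  omega

theorem srt_sorted (n : ℕ) (d : Fin 3 → ℤ) (h01 : d 0 ≤ d 1) (h12 : d 1 ≤ d 2)
    (c : Fin 10 → F[X]) (hc : c ∈ Vd n d) :
    ∃ (α β : ℕ) (c' : Fin 10 → F[X]), c' ∈ Vd n (dv α β) ∧ ∃ g, Eqv g c c' := by
  refine ⟨(d 1 - d 0).toNat, (d 2 - d 1).toNat, c, ?_, 1, Eqv.refl c⟩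
  refine shft n d _ (d 0) ?_ c hc
  intro i
  fin_cases i <;> simp only [dv, Matrix.cons_val, Fin.zero_eta, Fin.isValue, Fin.mk_one,
        Fin.reduceFinMk] <;> omega

theorem srt_step {n : ℕ} {c c' : Fin 10 → F[X]} {g : Matrix (Fin 3) (Fin 3) F[X]}
    (h : Eqv g c c')
    (h' : ∃ (α β : ℕ) (c'' : Fin 10 → F[X]), c'' ∈ Vd n (dv α β) ∧ ∃ g, Eqv g c' c'') :
    ∃ (α β : ℕ) (c'' : Fin 10 → F[X]), c'' ∈ Vd n (dv α β) ∧ ∃ g, Eqv g c c'' := by
  obtain ⟨α, β, c'', h1, g', h2⟩ := h'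
  exact ⟨α, β, c'', h1, _, h.trans h2⟩

theorem srt1 (n : ℕ) (d : Fin 3 → ℤ) (h1 : d 0 ≤ d 1) (h2 : d 0 ≤ d 2)
    (c : Fin 10 → F[X]) (hc : c ∈ Vd n d) :
    ∃ (α β : ℕ) (c' : Fin 10 → F[X]), c' ∈ Vd n (dv α β) ∧ ∃ g, Eqv g c c' := by
  rcases le_total (d 1) (d 2) with h | h
  · exact srt_sorted n d h1 h c hc
  · obtain ⟨c', hc', g, hg⟩ := swp12 n d c hc
    refine srt_step hg (srt_sorted n _ ?_ ?_ c' hc')
    · simpa using h2
    · simpa using h

theorem srt2 (n : ℕ) (d : Fin 3 → ℤ) (h2 : min (d 0) (d 1) ≤ d 2)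
    (c : Fin 10 → F[X]) (hc : c ∈ Vd n d) :
    ∃ (α β : ℕ) (c' : Fin 10 → F[X]), c' ∈ Vd n (dv α β) ∧ ∃ g, Eqv g c c' := by
  rcases le_total (d 0) (d 1) with h | h
  · refine srt1 n d h ?_ c hc
    omega
  · obtain ⟨c', hc', g, hg⟩ := swp01 n d c hc
    refine srt_step hg (srt1 n _ ?_ ?_ c' hc')
    · simpa using h
    · simp only [Matrix.cons_val]
      omega

theorem SRT_thm : SRTStmt := by
  intro F _ n d c hc
  rcases le_total (min (d 0) (d 1)) (d 2) with h | h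
  · exact srt2 n d h c hc
  · obtain ⟨c', hc', g, hg⟩ := swp12 n d c hc
    refine srt_step hg (srt2 n _ ?_ c' hc')
    simp only [Matrix.cons_val]
    omega

end Pool.Agent.H78.AV3
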